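import Pool.Agent.Y92.ZX.Stm3

/-!
# Project ZX, block FAM2: the model and its pair relations over all large rings
-/

set_option autoImplicit false
set_option linter.unusedSectionVars false

open Polynomial

namespace Pool.Agent.Y108.ZX

open Pool.Agent.Y226 Pool.Agent.Y226.ZG Pool.Agent.Y92.ZX

section

variable {K : Type} [Field K]

theorem sub_inj (R : Subring K) : Function.Injective R.subtype := Subtype.val_injective

theorem lift1 {τ : Type} (f : MvPolynomial τ K) :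
    Lrg K (fun R => ∃ fR : MvPolynomial τ R, MvPolynomial.map R.subtype fR = f) := by
  refine ⟨f.coeffs, fun R hR => ?_⟩
  have h : f ∈ Set.range (MvPolynomial.map R.subtype) := by
    rw [MvPolynomial.mem_range_map_iff_coeffs_subset]
    intro c hc
    exact ⟨⟨c, hR c hc⟩, rfl⟩
  obtain ⟨g, hg⟩ := h
  exact ⟨g, hg⟩

theorem lift2 {σ τ : Type} (f : MvPolynomial σ (MvPolynomial τ K)) :
    Lrg K (fun R => ∃ fR : MvPolynomial σ (MvPolynomial τ R),
      MvPolynomial.map (MvPolynomial.map R.subtype) fR = f) := by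
  have h1 : Lrg K (fun R => ∀ c ∈ f.coeffs, ∃ fR : MvPolynomial τ R,
      MvPolynomial.map R.subtype fR = c) :=
    Lrg.finset f.coeffs (P := fun c R => ∃ fR : MvPolynomial τ R,
      MvPolynomial.map R.subtype fR = c) fun c _ => lift1 c
  refine h1.mono fun R hR => ?_
  have h : f ∈ Set.range (MvPolynomial.map (MvPolynomial.map R.subtype)) := by
    rw [MvPolynomial.mem_range_map_iff_coeffs_subset]
    intro c hc
    obtain ⟨g, hg⟩ := hR c hc
    exact ⟨g, hg⟩
  obtain ⟨g, hg⟩ := h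
  exact ⟨g, hg⟩

theorem lift3 (f : K[X]) : Lrg K (fun R => ∃ fR : R[X], fR.map R.subtype = f) := by
  classical
  refine ⟨f.support.image f.coeff, fun R hR => exists_r₀ fun j => ?_⟩
  by_cases hj : f.coeff j = 0
  · rw [hj]
    exact zero_mem _
  · exact hR _ (Finset.mem_image.2 ⟨j, mem_support_iff.2 hj, rfl⟩)

theorem map_inj (R : Subring K) {τ : Type} :
    Function.Injective (MvPolynomial.map (σ := τ) R.subtype) :=
  MvPolynomial.map_injective _ (sub_inj R)

theorem map2_inj (R : Subring K) {σ τ : Type} :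
    Function.Injective (MvPolynomial.map (σ := σ) (MvPolynomial.map (σ := τ) R.subtype)) :=
  MvPolynomial.map_injective _ (map_inj R)

theorem eval0 {R : Subring K} {m : ℕ} {g : MvPolynomial (Fin m) K} {gR : MvPolynomial (Fin m) R}
    (h : MvPolynomial.map R.subtype gR = g) :
    ((MvPolynomial.eval 0 gR : R) : K) = MvPolynomial.eval 0 g := by
  rw [← h, MvPolynomial.eval_zero, MvPolynomial.eval_zero, MvPolynomial.constantCoeff_map]
  rfl

theorem unit0 {R : Subring K} {m : ℕ} {g : MvPolynomial (Fin m) K} {gR : MvPolynomial (Fin m) R}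
    (h : MvPolynomial.map R.subtype gR = g) (h0 : MvPolynomial.eval 0 g ≠ 0)
    (hR : (MvPolynomial.eval 0 g)⁻¹ ∈ R) {𝕜 : Type} [Field 𝕜] (χ : R →+* 𝕜) :
    χ (MvPolynomial.eval 0 gR) ≠ 0 := by
  have e := eval0 h
  have hu : IsUnit (MvPolynomial.eval 0 gR : R) := unit_of_inv (by rwa [e]) (by rwa [e])
  exact (hu.map χ).ne_zero

theorem map_bh {A B : Type} [CommRing A] [CommRing B] (f : A →+* B) {n : ℕ} (i j : Fin n)
    (a b : ℕ) (g : ℕ → ℕ → A) (g' : ℕ → ℕ → B) (h : ∀ u, u ≤ a → ∀ v, v ≤ b → f (g u v) = g' u v) :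
    MvPolynomial.map f (bh i j a b g) = bh i j a b g' := by
  unfold bh
  rw [map_sum]
  refine Finset.sum_congr rfl fun u hu => ?_
  rw [map_sum]
  refine Finset.sum_congr rfl fun v hv => ?_
  rw [Finset.mem_range] at hu hv
  rw [map_mul, map_mul, map_mul, map_mul, map_pow, map_pow, map_pow, map_pow,
    MvPolynomial.map_C, MvPolynomial.map_X, MvPolynomial.map_X, MvPolynomial.map_X,
    MvPolynomial.map_X, h u (by omega) v (by omega)]

/-- the polynomials without common zero -/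
theorem bezout [IsAlgClosed K] (a b : ℕ) (x : ℕ → ℕ → K)
    (h : ∀ c : K, ∃ v ≤ b, ∑ u ∈ Finset.range (a + 1), x u v * c ^ u ≠ 0) :
    ∃ U : ℕ → K[X], ∑ v ∈ Finset.range (b + 1),
      U v * (∑ u ∈ Finset.range (a + 1), C (x u v) * X ^ u) = 1 := by
  classical
  let f : Fin (b + 1) → K[X] := fun v => ∑ u ∈ Finset.range (a + 1), C (x u v) * X ^ u
  have hev : ∀ (v : Fin (b + 1)) (c : K), (f v).eval c =
      ∑ u ∈ Finset.range (a + 1), x u v * c ^ u := by
    intro v c
    show (∑ u ∈ Finset.range (a + 1), C (x u v) * X ^ u : K[X]).eval c = _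
    rw [eval_finsetSum]
    simp
  have htop : Ideal.span (Set.range f) = ⊤ := by
    by_contra hne
    obtain ⟨y, hy⟩ := (IsPrincipalIdealRing.principal (Ideal.span (Set.range f))).principal
    have hy' : Ideal.span (Set.range f) = Ideal.span {y} := hy
    have hdeg : y.degree ≠ 0 := by
      intro hd
      apply hne
      rw [hy']
      have : IsUnit y := Polynomial.isUnit_iff_degree_eq_zero.2 hd
      exact Ideal.span_singleton_eq_top.2 this
    obtain ⟨c, hc⟩ := IsAlgClosed.exists_root y hdeg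
    obtain ⟨v, hv, hs⟩ := h c
    have hm : f ⟨v, by omega⟩ ∈ Ideal.span {y} := by
      rw [← hy']
      exact Ideal.subset_span ⟨_, rfl⟩
    obtain ⟨z, hz⟩ := Ideal.mem_span_singleton'.1 hm
    apply hs
    have := hev ⟨v, by omega⟩ c
    rw [← hz, eval_mul, hc.eq_zero, mul_zero] at this
    exact this.symm
  have h1 : (1 : K[X]) ∈ Ideal.span (Set.range f) := by
    rw [htop]
    exact Submodule.mem_top
  obtain ⟨U, hU⟩ := Ideal.mem_span_range_iff_exists_fun.1 h1
  refine ⟨fun v => if hv : v < b + 1 then U ⟨v, hv⟩ else 0, ?_⟩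
  rw [Finset.sum_range]
  rw [← hU]
  refine Finset.sum_congr rfl fun v _ => ?_
  beta_reduce
  rw [dif_pos v.2]

theorem noCommon {R : Subring K} {𝕜 : Type} [Field 𝕜] (χ : R →+* 𝕜) (a b : ℕ)
    (x : ℕ → ℕ → K) (y : ℕ → ℕ → R) (hxy : ∀ u, u ≤ a → ∀ v, v ≤ b → (y u v : K) = x u v)
    (U : ℕ → K[X]) (UR : ℕ → R[X]) (hUR : ∀ v, v ≤ b → (UR v).map R.subtype = U v)
    (hU : ∑ v ∈ Finset.range (b + 1),
      U v * (∑ u ∈ Finset.range (a + 1), C (x u v) * X ^ u) = 1) (c : 𝕜) :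
    ∃ v ≤ b, ∑ u ∈ Finset.range (a + 1), χ (y u v) * c ^ u ≠ 0 := by
  have h1 : ∑ v ∈ Finset.range (b + 1),
      UR v * (∑ u ∈ Finset.range (a + 1), C (y u v) * X ^ u) = 1 := by
    apply Polynomial.map_injective R.subtype (sub_inj R)
    rw [Polynomial.map_one, ← hU, Polynomial.map_sum]
    refine Finset.sum_congr rfl fun v hv => ?_
    rw [Finset.mem_range] at hv
    rw [Polynomial.map_mul, hUR v (by omega), Polynomial.map_sum]
    congr 1
    refine Finset.sum_congr rfl fun u hu => ?_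
    rw [Finset.mem_range] at hu
    rw [Polynomial.map_mul, Polynomial.map_C, Polynomial.map_pow, Polynomial.map_X]
    congr 2
    exact hxy u (by omega) v (by omega)
  have h2 := congrArg (fun f : R[X] => f.eval₂ χ c) h1
  simp only [eval₂_one, eval₂_finsetSum, eval₂_mul, eval₂_C, eval₂_X_pow] at h2
  by_contra hcon
  push Not at hcon
  apply one_ne_zero (α := 𝕜)
  rw [← h2]
  apply Finset.sum_eq_zero
  intro v hv
  rw [Finset.mem_range] at hv
  rw [hcon v (by omega), mul_zero]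

end

theorem fam2 : S_FAM2 := by
  intro n m κ _ d₀ F hF
  classical
  have := Fintype.ofFinite κ
  have hLF : Lrg QA (fun R => ∀ t, ∃ fR : MvPolynomial (Fin n × Bool) (MvPolynomial (Fin m) R),
      MvPolynomial.map (MvPolynomial.map R.subtype) fR = F t) := Lrg.all fun t => lift2 (F t)
  have hP : ∀ i j : Fin n, Lrg QA (fun R => i ≠ j → ∀ FR : κ → MvPolynomial (Fin n × Bool) (MvPolynomial (Fin m) R),
      (∀ t, MvPolynomial.map (MvPolynomial.map R.subtype) (FR t) = F t) →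
      ∃ (a b : ℕ) (g : ℕ → ℕ → MvPolynomial (Fin m) R), ∀ (𝕜 : Type) [Field 𝕜] (χ : R →+* 𝕜),
        χ (MvPolynomial.eval 0 (g 0 0)) ≠ 0 ∧ χ (MvPolynomial.eval 0 (g a 0)) ≠ 0 ∧
        χ (MvPolynomial.eval 0 (g 0 b)) ≠ 0 ∧ χ (MvPolynomial.eval 0 (g a b)) ≠ 0 ∧
        (∀ c : 𝕜, ∃ v ≤ b, ∑ u ∈ Finset.range (a + 1),
          χ (MvPolynomial.eval 0 (g u v)) * c ^ u ≠ 0) ∧
        bh i j a b g ∈ Ideal.span (Set.range FR)) := by
    intro i j
    refine Lrg.imp fun hij => ?_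
    obtain ⟨a, b, g, -, -, h1, h2, h3, h4, h5, h6⟩ := hF.gen i j hij
    obtain ⟨q, hq⟩ := Ideal.mem_span_range_iff_exists_fun.1 h6
    obtain ⟨U, hU⟩ := bezout a b (fun u v => MvPolynomial.eval 0 (g u v)) h5
    have L1 : Lrg QA (fun R => ∀ u, u ≤ a → ∀ v, v ≤ b → ∃ gR : MvPolynomial (Fin m) R,
        MvPolynomial.map R.subtype gR = g u v) :=
      Lrg.nat_le a fun u _ => Lrg.nat_le b fun v _ => lift1 (g u v)
    have L2 : Lrg QA (fun R => ∀ t, ∃ fR : MvPolynomial (Fin n × Bool) (MvPolynomial (Fin m) R),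
      MvPolynomial.map (MvPolynomial.map R.subtype) fR = q t) := Lrg.all fun t => lift2 (q t)
    have L3 : Lrg QA (fun R => ∀ v, v ≤ b → ∃ UR : R[X], UR.map R.subtype = U v) :=
      Lrg.nat_le b fun v _ => lift3 (U v)
    have L4 : Lrg QA (fun R => (MvPolynomial.eval 0 (g 0 0))⁻¹ ∈ R ∧
        (MvPolynomial.eval 0 (g a 0))⁻¹ ∈ R ∧ (MvPolynomial.eval 0 (g 0 b))⁻¹ ∈ R ∧
        (MvPolynomial.eval 0 (g a b))⁻¹ ∈ R) :=
      (Lrg.mem _).and ((Lrg.mem _).and ((Lrg.mem _).and (Lrg.mem _)))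
    refine (L1.and (L2.and (L3.and L4))).mono ?_
    rintro R ⟨r1, r2, r3, r4, r5, r6, r7⟩ FR hFR
    choose g' hg' using r1
    choose q' hq' using r2
    choose U' hU' using r3
    obtain ⟨gR, hgR⟩ : ∃ gR : ℕ → ℕ → MvPolynomial (Fin m) R, ∀ u, u ≤ a → ∀ v, v ≤ b →
        MvPolynomial.map R.subtype (gR u v) = g u v := by
      refine ⟨fun u v => if hu : u ≤ a then (if hv : v ≤ b then g' u hu v hv else 0) else 0, ?_⟩
      intro u hu v hv
      beta_reduce
      rw [dif_pos hu, dif_pos hv]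
      exact hg' u hu v hv
    obtain ⟨UR, hUR⟩ : ∃ UR : ℕ → R[X], ∀ v, v ≤ b → (UR v).map R.subtype = U v := by
      refine ⟨fun v => if hv : v ≤ b then U' v hv else 0, ?_⟩
      intro v hv
      beta_reduce
      rw [dif_pos hv]
      exact hU' v hv
    refine ⟨a, b, gR, fun 𝕜 _ χ => ⟨?_, ?_, ?_, ?_, ?_, ?_⟩⟩
    · exact unit0 (hgR 0 (by omega) 0 (by omega)) h1 r4 χ
    · exact unit0 (hgR a le_rfl 0 (by omega)) h2 r5 χ
    · exact unit0 (hgR 0 (by omega) b le_rfl) h3 r6 χ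
    · exact unit0 (hgR a le_rfl b le_rfl) h4 r7 χ
    · intro c
      exact noCommon χ a b (fun u v => MvPolynomial.eval 0 (g u v))
        (fun u v => MvPolynomial.eval 0 (gR u v))
        (fun u hu v hv => eval0 (hgR u hu v hv)) U UR hUR hU c
    · rw [Ideal.mem_span_range_iff_exists_fun]
      refine ⟨q', ?_⟩
      apply map2_inj R
      rw [map_bh (MvPolynomial.map R.subtype) i j a b gR g hgR, ← hq, map_sum]
      refine Finset.sum_congr rfl fun t _ => ?_
      rw [map_mul, hq', hFR]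
  obtain ⟨S₀, hS₀⟩ := hLF.and (Lrg.all fun i => Lrg.all fun j => hP i j)
  refine ⟨S₀, fun R hR => ?_⟩
  obtain ⟨r1, r2⟩ := hS₀ R hR
  choose FR hFR using r1
  refine ⟨FR, hFR, fun t => ?_, fun 𝕜 _ χ i j hij => ?_⟩
  · obtain ⟨δ, hδ⟩ := hF.hom t
    refine ⟨δ, fun s hs => hδ s ?_⟩
    rw [← hFR t, MvPolynomial.support_map_of_injective _ (map_inj R)]
    exact hs
  · obtain ⟨a, b, g, h⟩ := r2 i j hij FR hFR
    exact ⟨a, b, g, h 𝕜 χ⟩

end Pool.Agent.Y108.ZX
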