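import Pool.Agent.Y92.ZX.Stm

/-!
# Ultraproducts of algebraically closed fields

The quotient of the product of the fields modulo an ultrafilter.
-/

set_option autoImplicit false

namespace Pool.Agent.Y108.ZX

open MvPolynomial
open Filter (hyperfilter Eventually eventually_all_finset eventually_ge_atTop)
open Pool.Agent.Y92.ZX (CC S_UL)

section
variable (𝕜 : ℕ → Type) [∀ m, Field (𝕜 m)]

/-- the ultrafilter -/
noncomputable abbrev U : Ultrafilter ℕ := hyperfilter ℕ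

/-- the ideal of the families which vanish almost everywhere -/
noncomputable def NN : Ideal (∀ m, 𝕜 m) where
  carrier := {a | ∀ᶠ m in (U : Filter ℕ), a m = 0}
  add_mem' := by
    intro a b ha hb
    filter_upwards [ha, hb] with m h1 h2
    simp [h1, h2]
  zero_mem' := Eventually.of_forall fun m => rfl
  smul_mem' := by
    intro c a ha
    filter_upwards [ha] with m h1
    simp [h1]

lemma mem_NN (a : ∀ m, 𝕜 m) : a ∈ NN 𝕜 ↔ ∀ᶠ m in (U : Filter ℕ), a m = 0 := Iff.rfl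

instance NN_max : (NN 𝕜).IsMaximal := by
  rw [Ideal.isMaximal_iff]
  constructor
  · rw [mem_NN]
    intro h
    obtain ⟨m, hm⟩ := h.exists
    exact one_ne_zero hm
  · intro J x hJ hx hxJ
    rw [mem_NN, ← Ultrafilter.eventually_not] at hx
    have h1 : x * (fun m => (x m)⁻¹) - 1 ∈ NN 𝕜 := by
      rw [mem_NN]
      filter_upwards [hx] with m hm
      simp [mul_inv_cancel₀ hm]
    have h2 : (1 : ∀ m, 𝕜 m) = x * (fun m => (x m)⁻¹) - (x * (fun m => (x m)⁻¹) - 1) := by ring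
    rw [h2]
    exact J.sub_mem (J.mul_mem_right _ hxJ) (hJ h1)

/-- the ultraproduct -/
abbrev KK : Type := (∀ m, 𝕜 m) ⧸ NN 𝕜

noncomputable instance : Field (KK 𝕜) := Ideal.Quotient.field _

/-- the projection -/
noncomputable def qq : (∀ m, 𝕜 m) →+* KK 𝕜 := Ideal.Quotient.mk (NN 𝕜)

lemma qq_surj : Function.Surjective (qq 𝕜) := Ideal.Quotient.mk_surjective

lemma qq_zero (a : ∀ m, 𝕜 m) : qq 𝕜 a = 0 ↔ ∀ᶠ m in (U : Filter ℕ), a m = 0 :=
  Ideal.Quotient.eq_zero_iff_mem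

/-- the component -/
abbrev ev (m : ℕ) : (∀ m, 𝕜 m) →+* 𝕜 m := Pi.evalRingHom 𝕜 m

lemma KK_alg [∀ m, IsAlgClosed (𝕜 m)] : IsAlgClosed (KK 𝕜) := by
  apply IsAlgClosed.of_exists_root
  intro p hp hirr
  obtain ⟨P, hP1, hP2, hP3⟩ := Polynomial.lifts_and_natDegree_eq_and_monic (f := qq 𝕜) (p := p)
    ((Polynomial.mem_lifts p).2 (Polynomial.map_surjective _ (qq_surj 𝕜) p)) hp
  have hdeg : 0 < P.natDegree := by
    rw [hP2]
    exact hirr.natDegree_pos
  have hroot : ∀ m, ∃ x : 𝕜 m, (P.map (ev 𝕜 m)).eval x = 0 := by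
    intro m
    apply IsAlgClosed.exists_root
    have h1 : (P.map (ev 𝕜 m)).natDegree = P.natDegree := hP3.natDegree_map _
    intro h2
    have h3 := Polynomial.natDegree_eq_zero_iff_degree_le_zero.2 (le_of_eq h2)
    omega
  choose x hx using hroot
  have h0 : P.eval x = 0 := by
    funext m
    have h1 := Polynomial.eval_map_apply (ev 𝕜 m) (p := P) x
    have h2 : ev 𝕜 m x = x m := rfl
    rw [h2, hx m] at h1
    exact h1.symm
  refine ⟨qq 𝕜 x, ?_⟩
  rw [← hP1, Polynomial.eval_map_apply, h0, map_zero]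

lemma KK_zero (pp : ℕ → ℕ) [∀ m, CharP (𝕜 m) (pp m)] (hpp : ∀ m, m < pp m) :
    CharZero (KK 𝕜) := by
  apply charZero_of_inj_zero
  intro l hl
  by_contra hne
  have h1 : qq 𝕜 (l : ∀ m, 𝕜 m) = 0 := by rw [map_natCast]; exact hl
  rw [qq_zero] at h1
  have h2 : ∀ᶠ m in (U : Filter ℕ), l ≤ m :=
    Nat.hyperfilter_le_atTop (eventually_ge_atTop l)
  obtain ⟨m, hm1, hm2⟩ := (h1.and h2).exists
  have h3 : ((l : ℕ) : 𝕜 m) = 0 := hm1
  rw [CharP.cast_eq_zero_iff (𝕜 m) (pp m)] at h3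
  have := Nat.le_of_dvd (Nat.pos_of_ne_zero hne) h3
  have := hpp m
  omega

variable {n : ℕ} (I : ∀ m, Ideal (MvPolynomial (Fin n) (𝕜 m)))

/-- the ideal upstairs -/
noncomputable def PP : Ideal (MvPolynomial (Fin n) (∀ m, 𝕜 m)) where
  carrier := {F | ∀ᶠ m in (U : Filter ℕ), map (ev 𝕜 m) F ∈ I m}
  add_mem' := by
    intro a b ha hb
    filter_upwards [ha, hb] with m h1 h2
    rw [map_add]
    exact (I m).add_mem h1 h2
  zero_mem' := Eventually.of_forall fun m => by rw [map_zero]; exact (I m).zero_mem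
  smul_mem' := by
    intro c a ha
    filter_upwards [ha] with m h1
    rw [smul_eq_mul, map_mul]
    exact (I m).mul_mem_left _ h1

lemma mem_PP (F : MvPolynomial (Fin n) (∀ m, 𝕜 m)) :
    F ∈ PP 𝕜 I ↔ ∀ᶠ m in (U : Filter ℕ), map (ev 𝕜 m) F ∈ I m := Iff.rfl

lemma PP_prime (hI : ∀ m, (I m).IsPrime) : (PP 𝕜 I).IsPrime := by
  constructor
  · intro h
    have h1 : (1 : MvPolynomial (Fin n) (∀ m, 𝕜 m)) ∈ PP 𝕜 I := by rw [h]; trivial
    rw [mem_PP] at h1
    obtain ⟨m, hm⟩ := h1.exists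
    rw [map_one] at hm
    exact (hI m).ne_top ((Ideal.eq_top_iff_one _).2 hm)
  · intro a b hab
    rw [mem_PP] at hab ⊢
    rw [mem_PP, ← Ultrafilter.eventually_or]
    filter_upwards [hab] with m hm
    rw [map_mul] at hm
    exact (hI m).mem_or_mem hm

lemma ker_le : RingHom.ker (map (σ := Fin n) (qq 𝕜)) ≤ PP 𝕜 I := by
  intro F hF
  rw [RingHom.mem_ker] at hF
  rw [mem_PP]
  have h1 : ∀ s ∈ F.support, ∀ᶠ m in (U : Filter ℕ), (F.coeff s) m = 0 := by
    intro s _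
    rw [← qq_zero, ← coeff_map, hF, coeff_zero]
  rw [← eventually_all_finset] at h1
  filter_upwards [h1] with m hm
  have h2 : map (ev 𝕜 m) F = 0 := by
    ext s
    rw [coeff_map, coeff_zero]
    by_cases hs : s ∈ F.support
    · exact hm s hs
    · rw [notMem_support_iff.1 hs, map_zero]
  rw [h2]
  exact (I m).zero_mem

/-- the ideal of the ultraproduct -/
noncomputable def JJ : Ideal (MvPolynomial (Fin n) (KK 𝕜)) := (PP 𝕜 I).map (map (qq 𝕜))

lemma map_surj : Function.Surjective (map (σ := Fin n) (qq 𝕜)) :=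
  MvPolynomial.map_surjective _ (qq_surj 𝕜)

lemma JJ_prime (hI : ∀ m, (I m).IsPrime) : (JJ 𝕜 I).IsPrime := by
  have := PP_prime 𝕜 I hI
  exact Ideal.map_isPrime_of_surjective (map_surj 𝕜) (ker_le 𝕜 I)

lemma mem_JJ (F : MvPolynomial (Fin n) (∀ m, 𝕜 m)) :
    map (qq 𝕜) F ∈ JJ 𝕜 I ↔ ∀ᶠ m in (U : Filter ℕ), map (ev 𝕜 m) F ∈ I m := by
  rw [← mem_PP]
  constructor
  · intro h
    obtain ⟨x, hx, hxF⟩ := (Ideal.mem_map_iff_of_surjective _ (map_surj 𝕜)).1 h
    have h1 : x - F ∈ PP 𝕜 I := by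
      apply ker_le 𝕜 I
      rw [RingHom.mem_ker, map_sub, hxF, sub_self]
    have h2 := (PP 𝕜 I).sub_mem hx h1
    rwa [sub_sub_cancel] at h2
  · intro h
    exact Ideal.mem_map_of_mem _ h

lemma JJ_CC {d₀ : ℕ} (hI : ∀ m, CC d₀ (I m)) : CC d₀ (JJ 𝕜 I) := by
  refine ⟨JJ_prime 𝕜 I fun m => (hI m).prime, ?_, ?_⟩
  · intro i c hc
    obtain ⟨c', rfl⟩ := qq_surj 𝕜 c
    have h1 : (X i - C (qq 𝕜 c') : MvPolynomial (Fin n) (KK 𝕜)) = map (qq 𝕜) (X i - C c') := by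
      rw [map_sub, map_X, map_C]
    rw [h1, mem_JJ] at hc
    obtain ⟨m, hm⟩ := hc.exists
    rw [map_sub, map_X, map_C] at hm
    exact (hI m).const i _ hm
  · intro i j hij
    have hg := fun m => (hI m).gen i j hij
    choose a b g ha hb g00 ga0 g0b gab hs using hg
    obtain ⟨ab, hab⟩ : ∃ ab : ℕ × ℕ, ∀ᶠ m in (U : Filter ℕ), (a m, b m) = ab := by
      by_contra hcon
      push Not at hcon
      have h1 : ∀ ab ∈ (Finset.range (d₀ + 1)) ×ˢ (Finset.range (d₀ + 1)),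
          ∀ᶠ m in (U : Filter ℕ), (a m, b m) ≠ ab := fun ab _ => hcon ab
      rw [← eventually_all_finset] at h1
      obtain ⟨m, hm⟩ := h1.exists
      refine hm (a m, b m) ?_ rfl
      rw [Finset.mem_product, Finset.mem_range, Finset.mem_range]
      exact ⟨Nat.lt_succ_of_le (ha m), Nat.lt_succ_of_le (hb m)⟩
    obtain ⟨a', b'⟩ := ab
    obtain ⟨m₁, hm₁⟩ := hab.exists
    rw [Prod.mk.injEq] at hm₁
    refine ⟨a', b', fun u v => qq 𝕜 fun m => g m u v, hm₁.1 ▸ ha m₁, hm₁.2 ▸ hb m₁, ?_, ?_, ?_,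
      ?_, ?_⟩
    · intro h
      rw [qq_zero] at h
      obtain ⟨m, hm⟩ := h.exists
      exact g00 m hm
    · intro h
      rw [qq_zero] at h
      obtain ⟨m, hm, hm'⟩ := (h.and hab).exists
      rw [Prod.mk.injEq] at hm'
      rw [← hm'.1] at hm
      exact ga0 m hm
    · intro h
      rw [qq_zero] at h
      obtain ⟨m, hm, hm'⟩ := (h.and hab).exists
      rw [Prod.mk.injEq] at hm'
      rw [← hm'.2] at hm
      exact g0b m hm
    · intro h
      rw [qq_zero] at h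
      obtain ⟨m, hm, hm'⟩ := (h.and hab).exists
      rw [Prod.mk.injEq] at hm'
      rw [← hm'.1, ← hm'.2] at hm
      exact gab m hm
    · have h1 : (∑ u ∈ Finset.range (a' + 1), ∑ v ∈ Finset.range (b' + 1),
          C (qq 𝕜 fun m => g m u v) * X i ^ u * X j ^ v : MvPolynomial (Fin n) (KK 𝕜)) =
          map (qq 𝕜) (∑ u ∈ Finset.range (a' + 1), ∑ v ∈ Finset.range (b' + 1),
            C (fun m => g m u v) * X i ^ u * X j ^ v) := by
        simp only [map_sum, map_mul, map_pow, map_X, map_C]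
      rw [h1, mem_JJ]
      filter_upwards [hab] with m hm
      rw [Prod.mk.injEq] at hm
      have h2 := hs m
      rw [hm.1, hm.2] at h2
      simp only [map_sum, map_mul, map_pow, map_X, map_C]
      exact h2

/-- the transfer -/
lemma transfer (S₀ : Finset (KK 𝕜)) : ∃ R : Subring (KK 𝕜), (∀ s ∈ S₀, s ∈ R) ∧
      ∀ Ps : Set (MvPolynomial (Fin n) R), Ps.Finite →
        (∀ P ∈ Ps, map R.subtype P ∈ JJ 𝕜 I) →
        ∀ m₀ : ℕ, ∃ m, m₀ ≤ m ∧ ∃ χ : R →+* 𝕜 m, ∀ P ∈ Ps, map χ P ∈ I m := by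
  classical
  let φ : MvPolynomial {x // x ∈ S₀} ℤ →+* KK 𝕜 :=
    eval₂Hom (Int.castRingHom _) (fun s => (s : KK 𝕜))
  have hsec : ∀ s : {x // x ∈ S₀}, ∃ a : ∀ m, 𝕜 m, qq 𝕜 a = s := fun s => qq_surj 𝕜 s
  choose st hst using hsec
  let ψ : MvPolynomial {x // x ∈ S₀} ℤ →+* (∀ m, 𝕜 m) := eval₂Hom (Int.castRingHom _) st
  have hcomp : (qq 𝕜).comp ψ = φ := by
    apply MvPolynomial.ringHom_ext
    · intro r
      simp [φ, ψ]
    · intro s
      simp [φ, ψ, hst]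
  refine ⟨φ.range, fun s hs => ⟨X ⟨s, hs⟩, by simp [φ]⟩, fun Ps hfin hPs m₀ => ?_⟩
  have hsurj : Function.Surjective φ.rangeRestrict := φ.rangeRestrict_surjective
  -- the generators of the kernel
  obtain ⟨G, hG⟩ : (RingHom.ker φ).FG := IsNoetherian.noetherian _
  have hker : ∀ g ∈ G, ∀ᶠ m in (U : Filter ℕ), (ψ g) m = 0 := by
    intro g hg
    rw [← qq_zero]
    have h1 : φ g = 0 := by
      rw [← RingHom.mem_ker, ← hG]
      exact Ideal.subset_span hg
    rw [← hcomp] at h1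
    exact h1
  rw [← eventually_all_finset] at hker
  -- the lifts of the polynomials
  have hlift : ∀ P : MvPolynomial (Fin n) φ.range, ∃ P' : MvPolynomial (Fin n)
      (MvPolynomial {x // x ∈ S₀} ℤ), map φ.rangeRestrict P' = P :=
    fun P => MvPolynomial.map_surjective _ hsurj P
  choose L hL using hlift
  have hP : ∀ P ∈ hfin.toFinset, ∀ᶠ m in (U : Filter ℕ), map (ev 𝕜 m) (map ψ (L P)) ∈ I m := by
    intro P hP
    have h1 := hPs P (hfin.mem_toFinset.1 hP)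
    rw [← mem_JJ, map_map, hcomp]
    rw [← hL P, map_map] at h1
    exact h1
  rw [← eventually_all_finset] at hP
  have hm0 : ∀ᶠ m in (U : Filter ℕ), m₀ ≤ m :=
    Nat.hyperfilter_le_atTop (eventually_ge_atTop m₀)
  obtain ⟨m, hm1, hm2, hm3⟩ := (hker.and (hP.and hm0)).exists
  have hkk : RingHom.ker φ.rangeRestrict ≤ RingHom.ker ((ev 𝕜 m).comp ψ) := by
    rw [RingHom.ker_rangeRestrict, ← hG, Ideal.span_le]
    intro g hg
    exact hm1 g hg
  let χ : φ.range →+* 𝕜 m := φ.rangeRestrict.liftOfSurjective hsurj ⟨(ev 𝕜 m).comp ψ, hkk⟩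
  have hχ : χ.comp φ.rangeRestrict = (ev 𝕜 m).comp ψ :=
    RingHom.liftOfRightInverse_comp _ _ _ _
  refine ⟨m, hm3, χ, fun P hPP => ?_⟩
  have h1 := hm2 P (hfin.mem_toFinset.2 hPP)
  rw [map_map, ← hχ, ← map_map, hL P] at h1
  exact h1

end

/-- **UL** -/
theorem ul : S_UL := by
  intro n d₀ 𝕜 _ _ pp _ hpp _ I hI
  exact ⟨KK 𝕜, inferInstance, KK_alg 𝕜, KK_zero 𝕜 pp hpp, JJ 𝕜 I, JJ_CC 𝕜 I hI,
    transfer 𝕜 I⟩

end Pool.Agent.Y108.ZX
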